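import Mathlib

/-!
# Invariant nonnegative subspaces of quaternion plus-matrices: the singular case

Counterexample with `n = 3`: `H = diag(1, -1, 0)`, `A e₃ = e₁`, `A e₁ = A e₂ = 0`,
`M₀ = span(e₁ + e₂)`.
-/

set_option autoImplicit false

namespace Pool.Agent.Results.MP_7dcdb2_al.NoExtension

open Quaternion Matrix

/-- Right `ℍ`-subspaces of the space of columns of length `n`. -/
abbrev RightSubspace (n : ℕ) := Submodule (ℍ[ℝ])ᵐᵒᵖ (Fin n → ℍ[ℝ])

/-- `[x, y] = y* H x`. -/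
noncomputable def form {n : ℕ} (H : Matrix (Fin n) (Fin n) ℍ[ℝ]) (x y : Fin n → ℍ[ℝ]) : ℍ[ℝ] :=
  star y ⬝ᵥ (H *ᵥ x)

/-- `S* H S = I_p ⊕ (-I_q) ⊕ 0_ν` for some invertible `S`, i.e. `In₊(H) = p`, `In₋(H) = q`,
`In₀(H) = ν`. -/
def HasInertia {n : ℕ} (H : Matrix (Fin n) (Fin n) ℍ[ℝ]) (p q ν : ℕ) : Prop :=
  p + q + ν = n ∧ ∃ S : Matrix (Fin n) (Fin n) ℍ[ℝ], IsUnit S ∧
    Sᴴ * H * S = diagonal fun i : Fin n => if (i : ℕ) < p then 1 else if (i : ℕ) < p + q then -1 else 0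

/-- `M` is `H`-nonnegative: `[x, x] ≥ 0` for all `x ∈ M` (for hermitian `H` the number `[x, x]`
is real). -/
def Nonneg {n : ℕ} (H : Matrix (Fin n) (Fin n) ℍ[ℝ]) (M : RightSubspace n) : Prop :=
  ∀ x ∈ M, 0 ≤ (form H x x).re

/-- `A` is an `H`-plus-matrix: `[A x, A x] ≥ 0` whenever `[x, x] ≥ 0`. -/
def IsPlusMatrix {n : ℕ} (H A : Matrix (Fin n) (Fin n) ℍ[ℝ]) : Prop :=
  ∀ x : Fin n → ℍ[ℝ], 0 ≤ (form H x x).re → 0 ≤ (form H (A *ᵥ x) (A *ᵥ x)).re

/-- `M` is `A`-invariant. -/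
def Invariant {n : ℕ} (A : Matrix (Fin n) (Fin n) ℍ[ℝ]) (M : RightSubspace n) : Prop :=
  ∀ x ∈ M, A *ᵥ x ∈ M

/-- the matrix `diag(1, -1, 0)` -/
noncomputable def H0 : Matrix (Fin 3) (Fin 3) ℍ[ℝ] := diagonal ![1, -1, 0]

/-- the matrix with `A e₃ = e₁`, `A e₁ = A e₂ = 0` -/
noncomputable def A0 : Matrix (Fin 3) (Fin 3) ℍ[ℝ] := single 0 2 1

/-- the span of `e₁ + e₂` -/
noncomputable def M0 : RightSubspace 3 := Submodule.span (ℍ[ℝ])ᵐᵒᵖ {![1, 1, 0]}

lemma form_H0 (x : Fin 3 → ℍ[ℝ]) : (form H0 x x).re = normSq (x 0) - normSq (x 1) := by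
  simp only [form, H0, mulVec_diagonal, dotProduct, Fin.sum_univ_three, Pi.star_apply]
  simp [Quaternion.normSq_def']
  ring

lemma A0_mulVec (x : Fin 3 → ℍ[ℝ]) : A0 *ᵥ x = ![x 2, 0, 0] := by
  ext i : 1
  fin_cases i <;> simp [A0, mulVec, dotProduct, single]

lemma mem_M0 (x : Fin 3 → ℍ[ℝ]) : x ∈ M0 ↔ x 0 = x 1 ∧ x 2 = 0 := by
  rw [M0, Submodule.mem_span_singleton]
  constructor
  · rintro ⟨a, rfl⟩
    simp
  · rintro ⟨h1, h2⟩
    refine ⟨MulOpposite.op (x 0), ?_⟩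
    ext i : 1
    fin_cases i
    · simp
    · simp [h1]
    · simp [h2]

/-- every `H`-nonnegative `A`-invariant subspace containing `M₀` equals `M₀` -/
lemma eq_M0 (M : RightSubspace 3) (h0 : M0 ≤ M) (hA : Invariant A0 M) (hH : Nonneg H0 M) :
    M = M0 := by
  have hu : (![1, 1, 0] : Fin 3 → ℍ[ℝ]) ∈ M := h0 ((mem_M0 _).2 (by simp))
  have key : ∀ x ∈ M, x 0 = x 1 := by
    intro x hx
    by_contra hne
    have hpos : 0 < normSq (x 0 - x 1) := by
      rcases lt_or_eq_of_le (normSq_nonneg (a := x 0 - x 1)) with h | h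
      · exact h
      · exact absurd (sub_eq_zero.1 (normSq_eq_zero.1 h.symm)) hne
    have h1 : ∀ t : ℝ, 0 ≤ normSq (x 0) - normSq (x 1) - 2 * t * normSq (x 0 - x 1) := by
      intro t
      have h2 := hH _ (M.add_mem hx (M.smul_mem (MulOpposite.op (-((t : ℍ[ℝ]) * (x 0 - x 1)))) hu))
      rw [form_H0] at h2
      have h3 : normSq (x 0 + -((t : ℍ[ℝ]) * (x 0 - x 1))) -
          normSq (x 1 + -((t : ℍ[ℝ]) * (x 0 - x 1))) =
          normSq (x 0) - normSq (x 1) - 2 * t * normSq (x 0 - x 1) := by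
        simp [Quaternion.normSq_def']
        ring
      rw [← h3]
      simpa using h2
    have h4 := h1 ((normSq (x 0) - normSq (x 1) + 1) / (2 * normSq (x 0 - x 1)))
    have h5 : 2 * ((normSq (x 0) - normSq (x 1) + 1) / (2 * normSq (x 0 - x 1))) *
        normSq (x 0 - x 1) = normSq (x 0) - normSq (x 1) + 1 := by
      field_simp
    rw [h5] at h4
    linarith
  refine le_antisymm (fun x hx => (mem_M0 x).2 ⟨key x hx, ?_⟩) h0
  by_contra h2
  have h3 := key _ (hA x hx)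
  rw [A0_mulVec] at h3
  exact h2 (by simpa using h3)

lemma finrank_M0 : Module.finrank (ℍ[ℝ])ᵐᵒᵖ M0 = 1 := by
  apply finrank_span_singleton
  intro h
  have := congrFun h 0
  simp at this

/-- There are a singular hermitian quaternion matrix `H` (with `n = 3`, `In₊ = In₋ = In₀ = 1`), an
`H`-plus-matrix `A` and an `A`-invariant `H`-nonnegative subspace `M₀` such that no `A`-invariant
`H`-nonnegative subspace `M ⊇ M₀` has dimension `In₊(H) + In₀(H)`; in fact `M₀` itself, of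
dimension one, is the only `A`-invariant `H`-nonnegative subspace containing `M₀`. -/
theorem result : ∃ (n p q ν : ℕ) (H A : Matrix (Fin n) (Fin n) ℍ[ℝ]) (M₀ : RightSubspace n),
    H.IsHermitian ∧ ¬ IsUnit H ∧ HasInertia H p q ν ∧ IsPlusMatrix H A ∧
    Invariant A M₀ ∧ Nonneg H M₀ ∧
    (∀ M : RightSubspace n, M₀ ≤ M → Invariant A M → Nonneg H M → M = M₀) ∧
    Module.finrank (ℍ[ℝ])ᵐᵒᵖ M₀ < p + ν := by
  refine ⟨3, 1, 1, 1, H0, A0, M0, ?_, ?_, ⟨rfl, 1, isUnit_one, ?_⟩, ?_, ?_, ?_, ?_, ?_⟩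
  · unfold IsHermitian H0
    rw [diagonal_conjTranspose]
    congr 1
    ext i : 1
    fin_cases i <;> simp
  · intro h
    obtain ⟨B, hB⟩ := h.exists_right_inv
    have h1 := congrFun (congrFun hB 2) 2
    rw [H0, diagonal_mul] at h1
    simp at h1
  · rw [conjTranspose_one, one_mul, mul_one, H0]
    congr 1
    ext i : 1
    fin_cases i <;> simp
  · intro x _
    rw [form_H0, A0_mulVec]
    simp [normSq_nonneg]
  · intro x hx
    rw [mem_M0] at hx ⊢
    rw [A0_mulVec]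
    simp [hx.2]
  · intro x hx
    rw [mem_M0] at hx
    rw [form_H0, hx.1, sub_self]
  · exact fun M h0 hA hH => eq_M0 M h0 hA hH
  · rw [finrank_M0]
    norm_num

end Pool.Agent.Results.MP_7dcdb2_al.NoExtension
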